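import Pool.Agent.Lib.MP_1a91b9_nuX.DY.Val

/-!
# Total ramification in the field of the points killed by `ϖ` when `od v ℓ` is a power of `ℓ`
-/

set_option autoImplicit false

namespace Pool.Agent.Lib.MP_1a91b9_nuW.W

open NumberField IsDedekindDomain WeierstrassCurve Pool.Agent.Lib.MP_1a91b9_nuT
open Pool.Agent.Lib.MP_1a91b9_nuX Pool.Agent.Lib.MP_1a91b9_nuX.DB Pool.Agent.Lib.MP_1a91b9_nuX.DX
open Pool.Agent.Lib.MP_1a91b9_nuT.DB (od od_pow od_map ramIdx_pos val_lt_one_iff val_map_eq gpl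
  gpl_under raD_val val_map_lt exists_od_one)

variable [CD]

universe u

/-- above `ℓ` the ramification indices are powers of `ℓ` -/
def EP (ℓ : ℕ) (F : Type u) [Field F] [NumberField F] : Prop :=
  ∀ v : HeightOneSpectrum (𝓞 F), v.valuation F (ℓ : F) < 1 → ∃ k : ℕ, od v (ℓ : F) = (ℓ : ℤ) ^ k

section
variable {k F : Type u} [Field k] [NumberField k] [Field F] [NumberField F] [Algebra k F]
  [Algebra K k] [Algebra K F] [IsScalarTower K k F] [DecidableEq F] {β : 𝓞 K}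

private theorem rac_inj (hβ : Prime β) {R : Pt F} (hR : Ord β R)
    (hgen : ∀ σ : Gal(F/k), ga σ R = R → σ = 1) : ∃ T : Finset (𝓞 K), IsRes β T ∧
    T.card + 1 = Ideal.absNorm (Ideal.span {β}) ∧ ∃ f : Gal(F/k) → T, Function.Injective f ∧
      ∀ σ, ga σ R = sm F ((f σ : 𝓞 K)) R := by
  obtain ⟨T, hT, hcard⟩ := exists_isRes hβ.ne_zero
  have h1 : ∀ σ : Gal(F/k), ∃ a : T, ga σ R = sm F (a : 𝓞 K) R := by
    intro σ
    obtain ⟨c, hc, e⟩ := gal_sm hβ.ne_zero hR σ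
    have hn : ¬ β ∣ c := fun h => hβ.not_isUnit (hc.isUnit_of_dvd' h dvd_rfl)
    obtain ⟨a, ha, hd⟩ := hT.ex c hn
    exact ⟨⟨a, ha⟩, e.trans ((hR.sm_eq_iff c a).2 hd)⟩
  choose f hf using h1
  refine ⟨T, hT, hcard, f, ?_, hf⟩
  intro σ τ h
  have e : ga σ R = ga τ R := by rw [hf σ, hf τ, h]
  have e2 : ga (τ⁻¹ * σ) R = R := by
    rw [ga_mul, e, ← ga_mul, inv_mul_cancel, ga_one]
  exact (inv_mul_eq_one.1 (hgen _ e2)).symm

private theorem rac_W (hβ : Prime β) {R : Pt F} (hR : Ord β R)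
    (W : HeightOneSpectrum (𝓞 F)) {m : ℕ} (hm : 0 < m)
    (hW : od (W.under (𝓞 k)) (algebraMap K k (β : K)) = m)
    (hb : W.valuation F (bD F) = 1) :
    ((Ideal.absNorm (Ideal.span {β}) - 1 : ℕ) : ℤ) * od W (tc R)
      = (W.asIdeal.ramificationIdx (𝓞 k) : ℤ) * m ∧ 1 ≤ od W (tc R) ∧
      Ker (W.valuation F) R := by
  have hbF : algebraMap K F (β : K) = algebraMap k F (algebraMap K k (β : K)) :=
    IsScalarTower.algebraMap_apply K k F (β : K)
  have hb0 : algebraMap K F (β : K) ≠ 0 := by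
    rw [Ne, map_eq_zero_iff _ (algebraMap K F).injective]
    intro h
    exact hβ.ne_zero (RingOfIntegers.ext h)
  have h1 : od W (algebraMap K F (β : K)) = (W.asIdeal.ramificationIdx (𝓞 k) : ℤ) * m := by
    rw [hbF, od_map (k := k) W, hW]
  have h2 : W.valuation F (algebraMap K F (β : K)) < 1 := by
    rw [val_lt_one_iff W hb0, h1]
    have := ramIdx_pos (k := k) W
    positivity
  have h3 := ker_of_val (W.valuation F) hβ hR h2 hb
  have hR0 : R ≠ 0 := by
    intro h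
    have h4 : sm F (1 : 𝓞 K) R = 0 := by rw [h, map_zero]
    exact hβ.not_isUnit (isUnit_of_dvd_one ((hR 1).1 h4))
  obtain ⟨t1, t2, -, -⟩ := ker_tc (W.valuation F) h3 hR0
  have ht0 : tc R ≠ 0 := by
    intro h
    rw [h, map_zero] at t2
    exact t2 rfl
  have h5 := v_tc (W.valuation F) hβ hR h2 hb
  refine ⟨?_, ?_, h3⟩
  · rw [← h1, ← od_pow]
    unfold od
    rw [map_pow, h5]
  · have := (val_lt_one_iff W ht0).1 t1
    omega

private theorem rac_num {m n g e f k : ℕ} {t : ℤ} (h1 : (m : ℤ) * t = e * k) (hk : 0 < k)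
    (hc : Nat.Coprime m k) (hn : 0 < n) (h2 : g * (e * f) = n) (h3 : n ≤ m) :
    e = n ∧ n = m ∧ t = k ∧ g = 1 ∧ f = 1 := by
  have hg : 0 < g := by
    rcases Nat.eq_zero_or_pos g with h | h
    · rw [h, zero_mul] at h2
      omega
    · exact h
  have hf : 0 < f := by
    rcases Nat.eq_zero_or_pos f with h | h
    · rw [h, mul_zero, mul_zero] at h2
      omega
    · exact h
  have he0 : 0 < e := by
    rcases Nat.eq_zero_or_pos e with h | h
    · rw [h, zero_mul, mul_zero] at h2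
      omega
    · exact h
  have he : e ≤ n := by
    rw [← h2]
    calc e = 1 * (e * 1) := by ring
      _ ≤ g * (e * f) := Nat.mul_le_mul hg (Nat.mul_le_mul_left _ hf)
  have hd : m ∣ e := by
    have h4 : (m : ℤ) ∣ ((e * k : ℕ) : ℤ) := ⟨t, by push_cast; exact h1.symm⟩
    exact hc.dvd_of_dvd_mul_right (Int.natCast_dvd_natCast.1 h4)
  have hm' : m ≤ e := Nat.le_of_dvd he0 hd
  have e1 : e = n := by omega
  have e2 : n = m := by omega
  have e3 : g * f = 1 := by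
    have h5 : n * (g * f) = n * 1 := by
      rw [e1] at h2
      calc n * (g * f) = g * (n * f) := by ring
        _ = n * 1 := by rw [h2, mul_one]
    exact Nat.eq_of_mul_eq_mul_left hn h5
  refine ⟨e1, e2, ?_, Nat.eq_one_of_mul_eq_one_right e3, Nat.eq_one_of_mul_eq_one_left e3⟩
  have hmp : (0 : ℤ) < m := by omega
  have h6 : (m : ℤ) * t = m * k := by
    rw [h1, e1, e2]
  exact mul_left_cancel₀ hmp.ne' h6

variable [IsGalois k F] (hβ : Prime β) {R : Pt F} (hR : Ord β R)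
  (hgen : ∀ σ : Gal(F/k), ga σ R = R → σ = 1)
include hβ hR hgen

/-- total ramification -/
theorem ram' (v : HeightOneSpectrum (𝓞 k)) {m : ℕ} (hm : 0 < m)
    (hv : od v (algebraMap K k (β : K)) = m)
    (hc : Nat.Coprime (Ideal.absNorm (Ideal.span {β}) - 1) m)
    (hb : v.valuation k (bD k) = 1) :
    Module.finrank k F + 1 = Ideal.absNorm (Ideal.span {β}) ∧
    (∀ W : HeightOneSpectrum (𝓞 F), W.under (𝓞 k) = v →
      W.asIdeal.ramificationIdx (𝓞 k) = Module.finrank k F ∧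
      W.asIdeal.inertiaDeg (𝓞 k) = 1 ∧ od W (tc R) = m ∧ Ker (W.valuation F) R ∧
      ∀ σ : Gal(F/k), gpl σ W = W) ∧
    ∀ c : 𝓞 K, ¬ β ∣ c → ∃ σ : Gal(F/k), ga σ R = sm F c R := by
  have hle := card_gal_le hβ hR hgen
  have hn : 0 < Module.finrank k F := Module.finrank_pos
  have hvm : v.asIdeal.IsMaximal := v.isMaximal
  have hfund := Ideal.ncard_primesOver_mul_ramificationIdxIn_mul_inertiaDegIn v.asIdeal (𝓞 F)
    Gal(F/k)
  rw [IsGalois.card_aut_eq_finrank] at hfund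
  have key : ∀ W : HeightOneSpectrum (𝓞 F), W.under (𝓞 k) = v →
      (W.asIdeal.ramificationIdx (𝓞 k) = Module.finrank k F ∧
        Module.finrank k F = Ideal.absNorm (Ideal.span {β}) - 1 ∧
        od W (tc R) = m ∧ (v.asIdeal.primesOver (𝓞 F)).ncard = 1 ∧
        W.asIdeal.inertiaDeg (𝓞 k) = 1) ∧ Ker (W.valuation F) R := by
    intro W hW
    have hlo : W.asIdeal.LiesOver v.asIdeal := ⟨by rw [← hW]; rfl⟩
    have hWp : W.asIdeal.IsPrime := W.isPrime
    obtain ⟨h1, h2, h3⟩ := rac_W (k := k) hβ hR W hm (by rw [hW]; exact hv)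
      (by
        have e : bD F = algebraMap k F (bD k) := (map_intCast _ _).symm
        rw [e, val_map_eq, hW]
        exact hb)
    rw [Ideal.ramificationIdxIn_eq_ramificationIdx v.asIdeal W.asIdeal Gal(F/k),
      Ideal.inertiaDegIn_eq_inertiaDeg v.asIdeal W.asIdeal Gal(F/k)] at hfund
    refine ⟨?_, h3⟩
    exact rac_num h1 hm hc hn hfund (by omega)
  obtain ⟨Q, hQ1, hQ2⟩ := (inferInstance : Nonempty (v.asIdeal.primesOver (𝓞 F)))
  have hQ0 : Q ≠ ⊥ := by
    intro h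
    have h1 := hQ2.over
    rw [h] at h1
    exact v.ne_bot (h1.trans (Ideal.comap_bot_of_injective _
      (FaithfulSMul.algebraMap_injective (𝓞 k) (𝓞 F))))
  let W0 : HeightOneSpectrum (𝓞 F) := ⟨Q, hQ1, hQ0⟩
  have hW0 : W0.under (𝓞 k) = v := HeightOneSpectrum.ext hQ2.over.symm
  obtain ⟨⟨-, hq, -, hg, -⟩, -⟩ := key W0 hW0
  have hq1 : Module.finrank k F + 1 = Ideal.absNorm (Ideal.span {β}) := by omega
  refine ⟨hq1, ?_, ?_⟩
  · intro W hW
    obtain ⟨⟨k1, -, k3, -, k5⟩, k6⟩ := key W hW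
    refine ⟨k1, k5, k3, k6, fun σ => ?_⟩
    obtain ⟨P, hP⟩ := Set.ncard_eq_one.mp hg
    have hm : ∀ W' : HeightOneSpectrum (𝓞 F), W'.under (𝓞 k) = v → W'.asIdeal = P := by
      intro W' hW'
      have h1 : W'.asIdeal ∈ v.asIdeal.primesOver (𝓞 F) :=
        ⟨W'.isPrime, ⟨by rw [← hW']; rfl⟩⟩
      rw [hP] at h1
      exact h1
    apply HeightOneSpectrum.ext
    rw [hm W hW, hm (gpl σ W) (by rw [gpl_under, hW])]
  · intro c hc
    obtain ⟨T, hT, hTc, f, hf, hfR⟩ := rac_inj hβ hR hgen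
    have h1 : Nat.card Gal(F/k) = Nat.card T := by
      rw [IsGalois.card_aut_eq_finrank, Nat.card_eq_fintype_card, Fintype.card_coe]
      omega
    have hb : Function.Bijective f := by
      rw [Nat.bijective_iff_injective_and_card]
      exact ⟨hf, h1⟩
    obtain ⟨a, ha, hd⟩ := hT.ex c hc
    obtain ⟨σ, hσ⟩ := hb.2 ⟨a, ha⟩
    refine ⟨σ, ?_⟩
    rw [hfR σ, hσ]
    exact ((hR.sm_eq_iff c a).2 hd).symm

end

section
variable {ϖ : 𝓞 K} {ℓ q : ℕ} (h : PD ϖ ℓ q) {F : Type u} [Field F] [NumberField F] [Algebra K F]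
include h

/-- the order of `ϖ` equals the order of `ℓ` -/
theorem od_pi {w : HeightOneSpectrum (𝓞 F)}
    (hw : w.valuation F (algebraMap K F (ϖ : K)) < 1) :
    od w (algebraMap K F (ϖ : K)) = od w (ℓ : F) := by
  unfold od
  rw [h.val_ell hw]

theorem cop_pow (k : ℕ) : Nat.Coprime (Ideal.absNorm (Ideal.span {ϖ}) - 1) (ℓ ^ k) := by
  rw [h.norm]
  exact Nat.Coprime.pow_right k h.coprime_q

/-- the field of the points killed by `ϖ` at the places above `ϖ` -/
theorem ramN {N : Type u} [Field N] [NumberField N] [Algebra K N] [Algebra F N]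
    [IsScalarTower K F N] [DecidableEq N] [IsGalois F N] (hE : EP ℓ F) {P₀ : Pt N}
    (hP₀ : Full F ϖ P₀) (w : HeightOneSpectrum (𝓞 N))
    (hw : w.valuation N (algebraMap K N (ϖ : K)) < 1) :
    w.asIdeal.ramificationIdx (𝓞 F) = q - 1 ∧ w.asIdeal.inertiaDeg (𝓞 F) = 1 ∧
      ∀ σ : Gal(N/F), gpl σ w = w := by
  have hv : (w.under (𝓞 F)).valuation F (algebraMap K F (ϖ : K)) < 1 := by
    rw [← val_map_lt, ← IsScalarTower.algebraMap_apply K F N]
    exact hw
  have hvl : (w.under (𝓞 F)).valuation F (ℓ : F) < 1 := (pd_val_ell_iff h).2 (Or.inl hv)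
  obtain ⟨k, hk⟩ := hE _ hvl
  obtain ⟨-, h3, -⟩ := ram' h.prime hP₀.ord hP₀.gen (w.under (𝓞 F)) (m := ℓ ^ k)
    (pow_pos h.hl.pos k) (by rw [od_pi h hv, hk]; push_cast; rfl) (cop_pow h k) (h.bad_pi hv)
  obtain ⟨he, hf, -, -, hg⟩ := h3 w rfl
  have hc := Full.card h hP₀
  exact ⟨by omega, hf, hg⟩

end

private theorem exb_place {ϖ : 𝓞 K} (hp : Prime ϖ) (F : Type u) [Field F] [NumberField F]
    [Algebra K F] : ∃ v : HeightOneSpectrum (𝓞 F),
      v.valuation F (algebraMap K F (ϖ : K)) < 1 := by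
  have hint : IsIntegral ℤ (algebraMap K F (ϖ : K)) := (RingOfIntegers.isIntegral_coe ϖ).algebraMap
  let y : 𝓞 F := ⟨algebraMap K F (ϖ : K), hint⟩
  have hy : ((y : 𝓞 F) : F) = algebraMap K F (ϖ : K) := rfl
  have hϖ0 : (ϖ : K) ≠ 0 := fun h0 => hp.ne_zero (RingOfIntegers.coe_eq_zero_iff.1 h0)
  have hy0 : y ≠ 0 := by
    intro h0
    have h1 : algebraMap K F (ϖ : K) = 0 := by rw [← hy, h0]; rfl
    exact hϖ0 ((map_eq_zero _).1 h1)
  have hnu : y ∈ nonunits (𝓞 F) := by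
    intro hu
    obtain ⟨c, hc⟩ := hu.exists_right_inv
    have h1 : algebraMap K F (ϖ : K) * (c : F) = 1 := by
      have h2 := congrArg (fun t : 𝓞 F => (t : F)) hc
      simpa only [map_mul, map_one, hy] using h2
    have h3 : (c : F) = algebraMap K F ((ϖ : K)⁻¹) := by
      rw [map_inv₀]
      exact eq_inv_of_mul_eq_one_right h1
    have h4 : IsIntegral ℤ (algebraMap K F ((ϖ : K)⁻¹)) := by
      rw [← h3]
      exact RingOfIntegers.isIntegral_coe c
    have h5 : IsIntegral ℤ ((ϖ : K)⁻¹) :=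
      (isIntegral_algebraMap_iff (algebraMap K F).injective).1 h4
    let d : 𝓞 K := ⟨(ϖ : K)⁻¹, h5⟩
    have h6 : ϖ * d = 1 := by
      apply RingOfIntegers.coe_injective
      show (ϖ : K) * (ϖ : K)⁻¹ = 1
      exact mul_inv_cancel₀ hϖ0
    exact hp.not_isUnit (IsUnit.of_mul_eq_one d h6)
  obtain ⟨M, hM, hyM⟩ := exists_max_ideal_of_mem_nonunits hnu
  have hMp := hM.isPrime
  refine ⟨⟨M, hMp, fun h0 => hy0 ?_⟩, ?_⟩
  · rw [h0] at hyM
    exact hyM
  · rw [← hy]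
    exact (HeightOneSpectrum.valuation_lt_one_iff_mem _ y).2 hyM

/-- the field of the points killed by `ϖ` -/
theorem exists_full' {ϖ : 𝓞 K} {ℓ q : ℕ} (h : PD ϖ ℓ q) (F : Type u) [Field F] [NumberField F]
    [Algebra K F] (hE : EP ℓ F) :
    ∃ (N : Type u) (_ : Field N) (_ : NumberField N) (_ : Algebra K N) (_ : Algebra F N)
      (_ : IsScalarTower K F N) (_ : DecidableEq N), IsGalois F N ∧ ∃ P : Pt N, Full F ϖ P := by
  obtain ⟨v, hv⟩ := exb_place h.prime F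
  obtain ⟨k, hk⟩ := hE v ((pd_val_ell_iff h).2 (Or.inl hv))
  obtain ⟨N, i1, i2, i3, i4, i5, i6, i7, i8, g1, g2, R, hR, hgen⟩ :=
    exists_ext F F h.prime.ne_zero
  let i9 : DecidableEq N := fun a b => Classical.propDecidable (a = b)
  refine ⟨N, i1, i2, i3, i5, i7, i9, g2, R, hR, hgen, ?_⟩
  exact (ram' h.prime hR hgen v (m := ℓ ^ k) (pow_pos h.hl.pos k)
    (by rw [od_pi h hv, hk]; push_cast; rfl) (cop_pow h k) (h.bad_pi hv)).2.2

section
variable [HC]

/-- the order of the parameter of the points killed by `ϖ` -/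
theorem od_tcP' {ϖ : 𝓞 K} {ℓ q : ℕ} (h : PD ϖ ℓ q) {F N L : Type u} [Field F] [NumberField F]
    [Algebra K F] [Field N] [NumberField N] [Algebra K N] [Field L] [NumberField L] [Algebra K L]
    [Algebra F N] [Algebra N L] [IsScalarTower K F N] [IsScalarTower K N L] [DecidableEq N]
    [DecidableEq L] {P₀ : Pt N} (hP₀ : Full F ϖ P₀) (W : HeightOneSpectrum (𝓞 L))
    (hW : W.valuation L (algebraMap K L (ϖ : K)) < 1) :
    ((q : ℤ) - 1) * od W (tc (up L P₀)) = od W (ℓ : L) := by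
  have hR : Ord ϖ (up L P₀) := (ord_up L).2 hP₀.ord
  have h5 := v_tc (W.valuation L) h.prime hR hW (h.bad_pi hW)
  have hq := h.q_five
  have h6 : ((Ideal.absNorm (Ideal.span {ϖ}) - 1 : ℕ) : ℤ) = (q : ℤ) - 1 := by
    rw [h.norm]
    omega
  rw [← od_pi h hW, ← h6, ← od_pow]
  unfold od
  rw [map_pow, h5]

/-- `ψ` at the places of an extension. -/
theorem psi_up {F F' : Type u} [Field F] [NumberField F] [Field F']
    [NumberField F'] [Algebra K F] [Algebra K F'] [Algebra F F'] [IsScalarTower K F F']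
    (w : HeightOneSpectrum (𝓞 F')) :
    psi F' w.asIdeal = psi F (w.under (𝓞 F)).asIdeal ^ w.asIdeal.inertiaDeg (𝓞 F) := by
  have hwm : w.asIdeal.IsMaximal := w.isMaximal
  have hvm : (w.under (𝓞 F)).asIdeal.IsMaximal := (w.under (𝓞 F)).isMaximal
  have hlo : w.asIdeal.LiesOver (w.under (𝓞 F)).asIdeal := ⟨rfl⟩
  have h1 : Ideal.relNorm (𝓞 F) w.asIdeal =
      (w.under (𝓞 F)).asIdeal ^ w.asIdeal.inertiaDeg (𝓞 F) :=
    Ideal.relNorm_eq_pow_of_isMaximal w.asIdeal (w.under (𝓞 F)).asIdeal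
  have hst : IsScalarTower (𝓞 K) (𝓞 F) (𝓞 F') := inferInstance
  have h2 : Ideal.relNorm (𝓞 K) w.asIdeal =
      Ideal.relNorm (𝓞 K) (Ideal.relNorm (𝓞 F) w.asIdeal) :=
    (Ideal.relNorm_relNorm (𝓞 K) (𝓞 F) w.asIdeal).symm
  rw [psi, h2, h1, map_pow, ps_pow]
  rfl

end

end Pool.Agent.Lib.MP_1a91b9_nuW.W
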