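import Pool.Agent.Lib.MP_1a91b9_nuT.DB.Od

/-!
# Local `ℓ`-th powers in Galois form
-/

set_option autoImplicit false
set_option linter.unusedSectionVars false
set_option linter.style.haveILetI false

namespace Pool.Agent.Lib.MP_1a91b9_nuW.W

open NumberField IsDedekindDomain
open Pool.Agent.Lib.MP_1a91b9_nuT.DB

universe u

variable [Pool.Agent.Lib.MP_1a91b9_nuT.CD]

/-- `y` is an `ℓ`-th power in the completion at `w`: some root of `y` is fixed by a decomposition
group above `w` -/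
def PL (ℓ : ℕ) {N : Type u} [Field N] [NumberField N] (w : HeightOneSpectrum (𝓞 N)) (y : N) :
    Prop :=
  ∃ (L : Type u) (_ : Field L) (_ : NumberField L) (_ : Algebra N L) (_ : IsGalois N L)
    (W : HeightOneSpectrum (𝓞 L)) (β : L), W.under (𝓞 N) = w ∧ β ^ ℓ = algebraMap N L y ∧
    ∀ σ : Gal(L/N), gpl σ W = W → σ β = β

section
variable {F N L : Type u} [Field F] [Field N] [Field L] [Algebra F N] [Algebra F L] [Algebra N L]
  [IsScalarTower F N L]

/-- an automorphism over `N` as an automorphism over `F` -/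
def tof (F : Type u) {N L : Type u} [Field F] [Field N] [Field L] [Algebra F N] [Algebra F L]
    [Algebra N L] [IsScalarTower F N L] (σ : Gal(L/N)) : Gal(L/F) := AlgEquiv.restrictScalars F σ

/-- the restriction to a normal subfield -/
noncomputable def rsn (N : Type u) [Field N] [Algebra F N] [Algebra N L] [IsScalarTower F N L] [Normal F N]
    (g : Gal(L/F)) : Gal(N/F) := g.restrictNormal N

variable [Normal F N]

theorem rsn_apply (g : Gal(L/F)) (x : N) : algebraMap N L (rsn N g x) = g (algebraMap N L x) :=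
  AlgEquiv.restrictNormal_commutes g N x

theorem rsn_mul (g h : Gal(L/F)) : rsn N (g * h) = rsn N g * rsn N h := by
  apply AlgEquiv.ext
  intro x
  apply (algebraMap N L).injective
  rw [rsn_apply, AlgEquiv.mul_apply, AlgEquiv.mul_apply, rsn_apply, rsn_apply]

theorem rsn_one : rsn N (1 : Gal(L/F)) = 1 := by
  apply AlgEquiv.ext
  intro x
  apply (algebraMap N L).injective
  rw [rsn_apply]
  rfl

theorem rsn_inv (g : Gal(L/F)) : rsn N g⁻¹ = (rsn N g)⁻¹ := by
  apply eq_inv_of_mul_eq_one_left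
  rw [← rsn_mul, inv_mul_cancel, rsn_one]

theorem rsn_tof (σ : Gal(L/N)) : rsn N (tof F σ) = 1 := by
  apply AlgEquiv.ext
  intro x
  apply (algebraMap N L).injective
  rw [rsn_apply]
  exact σ.commutes x

end

section
variable {F N L : Type u} [Field F] [NumberField F] [Field N] [NumberField N] [Field L]
  [NumberField L] [Algebra F N] [Algebra F L] [Algebra N L] [IsScalarTower F N L]

theorem gpl_tof (σ : Gal(L/N)) (W : HeightOneSpectrum (𝓞 L)) : gpl (tof F σ) W = gpl σ W := rfl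

theorem under_under (W : HeightOneSpectrum (𝓞 L)) :
    (W.under (𝓞 N)).under (𝓞 F) = W.under (𝓞 F) := by
  apply HeightOneSpectrum.ext
  ext x
  change algebraMap (𝓞 N) (𝓞 L) (algebraMap (𝓞 F) (𝓞 N) x) ∈ W.asIdeal ↔
    algebraMap (𝓞 F) (𝓞 L) x ∈ W.asIdeal
  have e : algebraMap (𝓞 N) (𝓞 L) (algebraMap (𝓞 F) (𝓞 N) x) = algebraMap (𝓞 F) (𝓞 L) x := by
    apply RingOfIntegers.ext
    change algebraMap N L (algebraMap F N (x : F)) = algebraMap F L (x : F)
    rw [← IsScalarTower.algebraMap_apply]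
  rw [e]

theorem over_exists {N L : Type u} [Field N] [NumberField N] [Field L] [NumberField L]
    [Algebra N L] (w : HeightOneSpectrum (𝓞 N)) :
    ∃ W : HeightOneSpectrum (𝓞 L), W.under (𝓞 N) = w := by
  have i3 : w.asIdeal.IsPrime := w.isPrime
  obtain ⟨Q, hQ1, hQ2⟩ := (inferInstance : Nonempty (w.asIdeal.primesOver (𝓞 L)))
  have hb : Q ≠ ⊥ := Ideal.ne_bot_of_mem_primesOver w.ne_bot ⟨hQ1, hQ2⟩
  refine ⟨⟨Q, hQ1, hb⟩, ?_⟩
  apply HeightOneSpectrum.ext
  exact hQ2.over.symm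

/-- the place below of a conjugate place -/
theorem gpl_rsn [Normal F N] (g : Gal(L/F)) (W : HeightOneSpectrum (𝓞 L)) :
    (gpl g W).under (𝓞 N) = gpl (rsn N g) (W.under (𝓞 N)) := by
  apply HeightOneSpectrum.ext
  ext x
  change g⁻¹ • (algebraMap (𝓞 N) (𝓞 L) x) ∈ W.asIdeal ↔
    algebraMap (𝓞 N) (𝓞 L) ((rsn N g)⁻¹ • x) ∈ W.asIdeal
  have e : g⁻¹ • (algebraMap (𝓞 N) (𝓞 L) x) = algebraMap (𝓞 N) (𝓞 L) ((rsn N g)⁻¹ • x) := by
    apply RingOfIntegers.ext
    change g⁻¹ (algebraMap N L (x : N)) = algebraMap N L ((rsn N g)⁻¹ (x : N))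
    rw [← rsn_inv, rsn_apply]
  rw [e]

theorem lift_exists [IsGalois F N] [IsGalois F L] (σ : Gal(N/F)) : ∃ g : Gal(L/F), rsn N g = σ := by
  obtain ⟨g, hg⟩ := AlgEquiv.restrictNormalHom_surjective (F := F) (K₁ := N) L σ
  exact ⟨g, hg⟩

/-- an element of a decomposition group lifts to an element of a decomposition group -/
theorem lift_dec [IsGalois F N] [IsGalois F L] (W : HeightOneSpectrum (𝓞 L)) (σ : Gal(N/F))
    (hσ : gpl σ (W.under (𝓞 N)) = W.under (𝓞 N)) :
    ∃ g : Gal(L/F), rsn N g = σ ∧ gpl g W = W := by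
  have hG : IsGalois N L := IsGalois.tower_top_of_isGalois F N L
  obtain ⟨g, hg⟩ := lift_exists (L := L) σ
  have h1 : W.under (𝓞 N) = (gpl g W).under (𝓞 N) := by rw [gpl_rsn, hg, hσ]
  obtain ⟨τ, hτ⟩ := gpl_trans (k := N) W (gpl g W) h1
  refine ⟨(tof F τ)⁻¹ * g, ?_, ?_⟩
  · rw [rsn_mul, rsn_inv, rsn_tof, hg, inv_one, one_mul]
  · have e : gpl (tof F τ) W = gpl g W := hτ
    rw [gpl_mul, ← e, ← gpl_mul, inv_mul_cancel, gpl_one]

end

/-- a common extension, Galois over the smallest field, with a root of unity and two roots -/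
theorem exists_comp (F F' A B : Type u) [Field F] [NumberField F] [Field F'] [NumberField F']
    [Field A] [NumberField A] [Field B] [NumberField B] [Algebra F F'] [Algebra F' A]
    [Algebra F' B] {ℓ : ℕ} (hℓ : 0 < ℓ) (a b : A) :
    ∃ (L : Type u) (_ : Field L) (_ : NumberField L) (_ : Algebra F L) (_ : Algebra F' L)
      (_ : Algebra A L) (_ : Algebra B L) (_ : IsScalarTower F F' L) (_ : IsScalarTower F' A L)
      (_ : IsScalarTower F' B L), IsGalois F L ∧ ∃ ζ α β : L, IsPrimitiveRoot ζ ℓ ∧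
        α ^ ℓ = algebraMap A L a ∧ β ^ ℓ = algebraMap A L b := by
  classical
  let _ : Algebra F A := ((algebraMap F' A).comp (algebraMap F F')).toAlgebra
  have s1 : IsScalarTower F F' A := IsScalarTower.of_algebraMap_eq fun _ => rfl
  have f1 : FiniteDimensional F A := FiniteDimensional.right ℚ F A
  have f2 : FiniteDimensional F' B := FiniteDimensional.right ℚ F' B
  let _ : Algebra F B := ((algebraMap F' B).comp (algebraMap F F')).toAlgebra
  have s2 : IsScalarTower F F' B := IsScalarTower.of_algebraMap_eq fun _ => rfl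
  have f3 : FiniteDimensional F B := FiniteDimensional.right ℚ F B
  let Ω := AlgebraicClosure A
  have s3 : IsScalarTower F' A Ω := inferInstance
  have s4 : IsScalarTower F A Ω := inferInstance
  have s5 : IsScalarTower F F' Ω := IsScalarTower.of_algebraMap_eq fun x => by
    rw [IsScalarTower.algebraMap_apply F A Ω, IsScalarTower.algebraMap_apply F F' A,
      ← IsScalarTower.algebraMap_apply F' A Ω]
  let f : B →ₐ[F'] Ω := IsAlgClosed.lift
  let fF : B →ₐ[F] Ω := f.restrictScalars F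
  let gF : A →ₐ[F] Ω := IsScalarTower.toAlgHom F A Ω
  have : NeZero (ℓ : Ω) := ⟨by exact_mod_cast hℓ.ne'⟩
  obtain ⟨ζ₀, hζ₀⟩ : ∃ z : Ω, (Polynomial.cyclotomic ℓ Ω).IsRoot z := by
    apply IsAlgClosed.exists_root
    rw [Polynomial.degree_cyclotomic]
    exact_mod_cast (Nat.totient_pos.2 hℓ).ne'
  rw [Polynomial.isRoot_cyclotomic_iff] at hζ₀
  obtain ⟨α₀, hα₀⟩ := IsAlgClosed.exists_pow_nat_eq (algebraMap A Ω a) hℓ
  obtain ⟨β₀, hβ₀⟩ := IsAlgClosed.exists_pow_nat_eq (algebraMap A Ω b) hℓ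
  have : Algebra.IsAlgebraic F Ω := Algebra.IsAlgebraic.trans F A Ω
  have h4 : FiniteDimensional F (IntermediateField.adjoin F ({ζ₀, α₀, β₀} : Set Ω)) :=
    IntermediateField.finiteDimensional_adjoin fun x _ => Algebra.IsIntegral.isIntegral x
  have h1 : FiniteDimensional F gF.fieldRange :=
    LinearMap.finiteDimensional_range gF.toLinearMap
  have h2 : FiniteDimensional F fF.fieldRange :=
    LinearMap.finiteDimensional_range fF.toLinearMap
  let M : IntermediateField F Ω :=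
    (gF.fieldRange ⊔ fF.fieldRange) ⊔ IntermediateField.adjoin F ({ζ₀, α₀, β₀} : Set Ω)
  have hM : FiniteDimensional F M := inferInstance
  let L : IntermediateField F Ω := IntermediateField.normalClosure F M Ω
  have hML : M ≤ L := IntermediateField.le_normalClosure M
  have hL : FiniteDimensional F L := normalClosure.is_finiteDimensional F M Ω
  have hnorm : Normal F L := normalClosure.normal F M Ω
  have hsep : Algebra.IsSeparable F L := inferInstance
  have : NumberField L := NumberField.of_module_finite F L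
  have hA : ∀ x, algebraMap A Ω x ∈ L := fun x => hML
    ((le_sup_left.trans le_sup_left : gF.fieldRange ≤ M) ⟨x, rfl⟩)
  have hB : ∀ x, f x ∈ L := fun x => hML
    ((le_sup_right.trans le_sup_left : fF.fieldRange ≤ M) ⟨x, rfl⟩)
  have hadj : ∀ x ∈ ({ζ₀, α₀, β₀} : Set Ω), x ∈ L := fun x hx => hML
    ((le_sup_right : IntermediateField.adjoin F ({ζ₀, α₀, β₀} : Set Ω) ≤ M)
      (IntermediateField.subset_adjoin F _ hx))
  let iA : A →+* L := (algebraMap A Ω).codRestrict L.toSubfield.toSubring hA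
  let iB : B →+* L := (f : B →+* Ω).codRestrict L.toSubfield.toSubring hB
  let a1 : Algebra A L := iA.toAlgebra
  let a2 : Algebra B L := iB.toAlgebra
  let a3 : Algebra F' L := (iA.comp (algebraMap F' A)).toAlgebra
  refine ⟨L, inferInstance, inferInstance, inferInstance, a3, a1, a2, ?_, ?_, ?_, ⟨⟩,
    ⟨ζ₀, hadj _ (by simp)⟩, ⟨α₀, hadj _ (by simp)⟩, ⟨β₀, hadj _ (by simp)⟩, ?_, ?_, ?_⟩
  · refine IsScalarTower.of_algebraMap_eq fun x => Subtype.ext ?_
    change algebraMap F Ω x = algebraMap A Ω (algebraMap F' A (algebraMap F F' x))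
    rw [← IsScalarTower.algebraMap_apply F F' A, ← IsScalarTower.algebraMap_apply F A Ω]
  · exact IsScalarTower.of_algebraMap_eq fun x => rfl
  · refine IsScalarTower.of_algebraMap_eq fun x => Subtype.ext ?_
    change algebraMap A Ω (algebraMap F' A x) = f (algebraMap F' B x)
    rw [f.commutes, ← IsScalarTower.algebraMap_apply F' A Ω]
  · exact IsPrimitiveRoot.of_map_of_injective (f := L.val) hζ₀ L.val.injective
  · exact Subtype.ext hα₀
  · exact Subtype.ext hβ₀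

/-- a common Galois extension of two extensions of `N`, with a root of unity and two roots -/
theorem exists_comp₁ (N A B : Type u) [Field N] [NumberField N]
    [Field A] [NumberField A] [Field B] [NumberField B] [Algebra N A]
    [Algebra N B] {ℓ : ℕ} (hℓ : 0 < ℓ) (a b : A) :
    ∃ (L : Type u) (_ : Field L) (_ : NumberField L) (_ : Algebra N L)
      (_ : Algebra A L) (_ : Algebra B L) (_ : IsScalarTower N A L)
      (_ : IsScalarTower N B L), IsGalois N L ∧ ∃ ζ α β : L, IsPrimitiveRoot ζ ℓ ∧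
        α ^ ℓ = algebraMap A L a ∧ β ^ ℓ = algebraMap A L b := by
  obtain ⟨M, j1, j2, j3, j3', j4, j5, j6', j6, j7, hG, hz⟩ := exists_comp N N A B hℓ a b
  have e3 : j3 = j3' := Algebra.algebra_ext _ _ fun r =>
    @IsScalarTower.algebraMap_apply N N M _ _ _ (Algebra.id N) j3' j3 j6' r
  subst e3
  exact ⟨M, j1, j2, j3, j4, j5, j6, j7, hG, hz⟩

section
variable {N : Type u} [Field N] [NumberField N] {ℓ : ℕ} {w : HeightOneSpectrum (𝓞 N)}

/-- two roots differ by a root of unity -/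
theorem root_eq {L : Type u} [Field L] (hℓ : 0 < ℓ) {ζ α β y : L} (hζ : IsPrimitiveRoot ζ ℓ)
    (hy : y ≠ 0) (hα : α ^ ℓ = y) (hβ : β ^ ℓ = y) : ∃ i : ℕ, β = ζ ^ i * α := by
  have hα0 : α ≠ 0 := by
    rintro rfl
    rw [zero_pow hℓ.ne'] at hα
    exact hy hα.symm
  have h1 : (β / α) ^ ℓ = 1 := by rw [div_pow, hα, hβ, div_self hy]
  haveI : NeZero ℓ := ⟨hℓ.ne'⟩
  obtain ⟨i, _, hi⟩ := hζ.eq_pow_of_pow_eq_one h1
  refine ⟨i, ?_⟩
  rw [hi, div_mul_cancel₀ _ hα0]

/-- the property `PL` in a field which contains the roots -/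
theorem PL.use (hℓ : 0 < ℓ) {y : N} (hy : y ≠ 0) (h : PL ℓ w y) {L : Type u} [Field L]
    [NumberField L] [Algebra N L] [IsGalois N L] (W : HeightOneSpectrum (𝓞 L))
    (hW : W.under (𝓞 N) = w) {ζ α : L} (hζ : IsPrimitiveRoot ζ ℓ)
    (hα : α ^ ℓ = algebraMap N L y) :
    ∃ β : L, β ^ ℓ = algebraMap N L y ∧ ∀ σ : Gal(L/N), gpl σ W = W → σ β = β := by
  obtain ⟨L₁, i1, i2, i3, i4, W₁, β₁, hW₁, hβ₁, hfix⟩ := h
  obtain ⟨M, j1, j2, j3, j4, j5, j6, j7, hG, ζ', α', β', -, -, -⟩ :=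
    exists_comp₁ N L L₁ hℓ (0 : L) (0 : L)
  have hy' : algebraMap N M y ≠ 0 := (map_ne_zero _).2 hy
  obtain ⟨V, hV⟩ := over_exists (L := M) W
  -- the place of `L₁` below `V` is conjugate to `W₁`
  have h1 : W₁.under (𝓞 N) = (V.under (𝓞 L₁)).under (𝓞 N) := by
    rw [under_under, hW₁, ← hW, ← hV, under_under]
  obtain ⟨ρ, hρ⟩ := gpl_trans (k := N) W₁ (V.under (𝓞 L₁)) h1
  have h2 : ∀ σ : Gal(L₁/N), gpl σ (V.under (𝓞 L₁)) = V.under (𝓞 L₁) → σ (ρ β₁) = ρ β₁ := by
    intro σ hσ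
    have h3 : gpl (ρ⁻¹ * σ * ρ) W₁ = W₁ := by
      rw [gpl_mul, gpl_mul, hρ, hσ, ← hρ, ← gpl_mul, inv_mul_cancel, gpl_one]
    have h4 := hfix _ h3
    rw [AlgEquiv.mul_apply, AlgEquiv.mul_apply] at h4
    have h5 := congrArg ρ h4
    rw [← AlgEquiv.mul_apply ρ, mul_inv_cancel] at h5
    exact h5
  -- the root in `L`
  have h3 : (algebraMap L₁ M (ρ β₁)) ^ ℓ = algebraMap N M y := by
    rw [← map_pow, ← map_pow, hβ₁, AlgEquiv.commutes, ← IsScalarTower.algebraMap_apply N L₁ M]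
  have h4 : (algebraMap L M α) ^ ℓ = algebraMap N M y := by
    rw [← map_pow, hα, ← IsScalarTower.algebraMap_apply N L M]
  have hζM : IsPrimitiveRoot (algebraMap L M ζ) ℓ :=
    hζ.map_of_injective (algebraMap L M).injective
  obtain ⟨i, hi⟩ := root_eq hℓ hζM hy' h4 h3
  refine ⟨ζ ^ i * α, ?_, ?_⟩
  · rw [mul_pow, ← pow_mul, mul_comm i ℓ, pow_mul, hζ.pow_eq_one, one_pow, one_mul, hα]
  · intro σ hσ
    obtain ⟨g, hg, hgV⟩ := lift_dec (F := N) (N := L) (L := M) V σ (by rw [hV]; exact hσ)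
    have h5 : gpl (rsn L₁ g) (V.under (𝓞 L₁)) = V.under (𝓞 L₁) := by
      rw [← gpl_rsn, hgV]
    have h6 := h2 _ h5
    apply (algebraMap L M).injective
    rw [← hg, rsn_apply, map_mul, map_pow, ← hi, ← rsn_apply, h6]

/-- multiplicativity -/
theorem PL.mul (hℓ : 0 < ℓ) {y z : N} (hy : y ≠ 0) (hz : z ≠ 0) (h1 : PL ℓ w y)
    (h2 : PL ℓ w z) : PL ℓ w (y * z) := by
  obtain ⟨M, j1, j2, j3, j4, j5, j6, j7, hG, ζ, α, β, hζ, hα, hβ⟩ :=
    exists_comp₁ N N N hℓ y z
  have e3 : j3 = j4 := Algebra.algebra_ext _ _ fun r =>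
    @IsScalarTower.algebraMap_apply N N M _ _ _ (Algebra.id N) j4 j3 j6 r
  subst e3
  have e4 : j3 = j5 := Algebra.algebra_ext _ _ fun r =>
    @IsScalarTower.algebraMap_apply N N M _ _ _ (Algebra.id N) j5 j3 j7 r
  subst e4
  obtain ⟨V, hV⟩ := over_exists (L := M) w
  obtain ⟨a, ha1, ha2⟩ := h1.use hℓ hy V hV hζ hα
  obtain ⟨b, hb1, hb2⟩ := h2.use hℓ hz V hV hζ hβ
  refine ⟨M, j1, j2, j3, hG, V, a * b, hV, ?_, ?_⟩
  · rw [mul_pow, ha1, hb1, map_mul]
  · intro σ hσ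
    rw [map_mul, ha2 σ hσ, hb2 σ hσ]

theorem PL.inv {y : N} (h1 : PL ℓ w y) : PL ℓ w y⁻¹ := by
  obtain ⟨L, i1, i2, i3, i4, W, β, hW, hβ, hfix⟩ := h1
  refine ⟨L, i1, i2, i3, i4, W, β⁻¹, hW, ?_, fun σ hσ => ?_⟩
  · rw [inv_pow, hβ, map_inv₀]
  · rw [map_inv₀, hfix σ hσ]

theorem PL.mul_pow {y : N} (h1 : PL ℓ w y) (z : N) : PL ℓ w (y * z ^ ℓ) := by
  obtain ⟨L, i1, i2, i3, i4, W, β, hW, hβ, hfix⟩ := h1
  refine ⟨L, i1, i2, i3, i4, W, β * algebraMap N L z, hW, ?_, fun σ hσ => ?_⟩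
  · rw [_root_.mul_pow, hβ, map_mul, map_pow]
  · rw [map_mul, hfix σ hσ, AlgEquiv.commutes]

/-- transport by an automorphism -/
theorem PL.gpl {k : Type u} [Field k] [NumberField k] [Algebra k N] (γ : Gal(N/k)) {y : N}
    (h1 : PL ℓ w y) : PL ℓ (gpl γ w) (γ y) := by
  obtain ⟨L, i1, i2, i3, i4, W, β, hW, hβ, hfix⟩ := h1
  let a : Algebra N L := ((algebraMap N L).comp ((γ⁻¹ : Gal(N/k)) : N →+* N)).toAlgebra
  have ha : ∀ x : N, @algebraMap N L _ _ a x = @algebraMap N L _ _ i3 ((γ⁻¹ : Gal(N/k)) x) :=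
    fun x => rfl
  have hinv : ∀ x : N, (γ⁻¹ : Gal(N/k)) (γ x) = x := fun x => by
    rw [← AlgEquiv.mul_apply, inv_mul_cancel]
    rfl
  have hinv' : ∀ x : N, γ ((γ⁻¹ : Gal(N/k)) x) = x := fun x => by
    rw [← AlgEquiv.mul_apply, mul_inv_cancel]
    rfl
  have hfin : FiniteDimensional N L := FiniteDimensional.right ℚ N L
  have hG : @IsGalois N _ L _ a := by
    refine @IsGalois.of_equiv_equiv N L _ _ i3 N L _ _ a i4 (γ : N ≃+* N) (RingEquiv.refl L) ?_
    ext x
    change @algebraMap N L _ _ i3 ((γ⁻¹ : Gal(N/k)) (γ x)) = @algebraMap N L _ _ i3 x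
    rw [hinv]
  refine ⟨L, i1, i2, a, hG, W, β, ?_, ?_, ?_⟩
  · rw [← hW]
    apply HeightOneSpectrum.ext
    ext x
    rfl
  · rw [hβ, ha, hinv]
  · intro σ hσ
    have hc : ∀ x : N, σ.toRingEquiv (@algebraMap N L _ _ i3 x) = @algebraMap N L _ _ i3 x := by
      intro x
      have h2 : @algebraMap N L _ _ i3 x = @algebraMap N L _ _ a (γ x) := by rw [ha, hinv]
      rw [h2]
      exact σ.commutes (γ x)
    exact hfix (@AlgEquiv.ofRingEquiv N L L _ _ _ i3 i3 σ.toRingEquiv hc) hσ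

end

end Pool.Agent.Lib.MP_1a91b9_nuW.W
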