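import Pool.Agent.Lib.MP_1a91b9_nuX.DH.Unr
import Pool.Agent.Lib.MP_1a91b9_nuX.DB.Frob
import Pool.Agent.Lib.MP_1a91b9_nuW.W.PL

/-!
# The decomposition group above a place which is not anomalous: it moves the roots of unity, and
the Kummer classes of locally trivial cocycles are locally `ℓ`-th powers
-/

set_option autoImplicit false
set_option linter.unusedSectionVars false

namespace Pool.Agent.Lib.MP_1a91b9_nuW.W

open NumberField IsDedekindDomain WeierstrassCurve Pool.Agent.Lib.MP_1a91b9_nuT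
open Pool.Agent.Lib.MP_1a91b9_nuX Pool.Agent.Lib.MP_1a91b9_nuX.DB Pool.Agent.Lib.MP_1a91b9_nuX.DX
open Pool.Agent.Lib.MP_1a91b9_nuX.DH (TC LocSol)

variable [CD]

universe u

variable [HC]

section
variable {F N N₂ L : Type u} [Field F] [NumberField F] [Algebra K F] [Field N] [NumberField N]
  [Algebra K N] [Field N₂] [NumberField N₂] [Algebra K N₂] [Field L] [NumberField L] [Algebra K L]
  [Algebra F N] [Algebra F N₂] [Algebra F L] [Algebra N L] [Algebra N₂ L]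
  [IsScalarTower K F N] [IsScalarTower K F N₂] [IsScalarTower K F L] [IsScalarTower K N L]
  [IsScalarTower K N₂ L] [IsScalarTower F N L] [IsScalarTower F N₂ L]
  [DecidableEq F] [DecidableEq N] [DecidableEq N₂] [DecidableEq L]
  [IsGalois F N] [IsGalois F N₂] [IsGalois F L]
  {ϖ : 𝓞 K} {ℓ q : ℕ} {P₀ : Pt N} {P₂ : Pt N₂} {ζ : L} {κ : Gal(L/F) → Pt L}
  (D : TC ϖ ℓ q P₀ P₂ ζ κ)
include D

/-- the Frobenius automorphism over `N` -/
theorem tc_frob (W : HeightOneSpectrum (𝓞 L)) (hb : W.valuation L (bD L) = 1)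
    (hW : W.valuation L (algebraMap K L (cj ϖ : K)) = 1) :
    ∃ τ : Gal(L/N), gpl τ W = W ∧
      (∀ x : 𝓞 L, τ • x - x ^ (Ideal.absNorm (W.under (𝓞 N)).asIdeal) ∈ W.asIdeal) ∧
      ga τ (up L P₂) = sm L (psi N (W.under (𝓞 N)).asIdeal) (up L P₂) := by
  have iG : IsGalois N L := IsGalois.tower_top_of_isGalois F N L
  obtain ⟨τ, hτ, hτW⟩ := exists_frobW (k := N) W
  refine ⟨τ, hτW, hτ, ?_⟩
  exact frob (k := N) W hb τ hτ hW (((ord_up L).2 D.full₂.ord (cj ϖ)).2 dvd_rfl)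

/-- the decomposition group moves the roots of unity -/
theorem tc_na (W : HeightOneSpectrum (𝓞 L)) (hb : W.valuation L (bD L) = 1)
    (hW : W.valuation L (algebraMap K L (cj ϖ : K)) = 1)
    (hna : ¬ cj ϖ ∣ psi N (W.under (𝓞 N)).asIdeal - 1) :
    ∃ τ : Gal(L/N), gpl τ W = W ∧ τ ζ ≠ ζ := by
  obtain ⟨τ, hτW, -, hτ⟩ := tc_frob D W hb hW
  refine ⟨τ, hτW, fun h1 => hna ?_⟩
  have h2 := D.chi_N τ hτ (x := 1) (by rw [pow_one]; exact h1)
  have h3 := (dvd_neg).2 h2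
  push_cast at h3
  rwa [neg_sub] at h3

/-- the Kummer class of a locally trivial cocycle is locally an `ℓ`-th power -/
theorem tc_pl (W : HeightOneSpectrum (𝓞 L)) (hb : W.valuation L (bD L) = 1)
    (hW : W.valuation L (algebraMap K L (cj ϖ : K)) = 1)
    (hna : ¬ cj ϖ ∣ psi N (W.under (𝓞 N)).asIdeal - 1) (hloc : LocSol κ W)
    {φ : 𝓞 K →+ ZMod ℓ} {y : Nˣ} {α : L} (hK : DH.KC F ϖ ℓ P₀ P₂ ζ κ φ y α) :
    PL ℓ (W.under (𝓞 N)) (y : N) := by
  have iG : IsGalois N L := IsGalois.tower_top_of_isGalois F N L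
  have hpr := (pd_cj D.pd).prime
  have hR₂ : Ord (cj ϖ) (up L P₂) := (ord_up L).2 D.full₂.ord
  obtain ⟨τ, hτW, hτF, hτ⟩ := tc_frob D W hb hW
  -- the decomposition group commutes with the Frobenius automorphism
  have hcomm : ∀ g : Gal(L/N), gpl g W = W → g * τ = τ * g := by
    intro g hg
    have h1 : τ⁻¹ * (g⁻¹ * τ * g) = 1 := by
      refine D.inert W hb hW hloc _ fun x => ?_
      have hmem : ∀ (s : Gal(L/N)) (z : 𝓞 L), gpl s W = W → z ∈ W.asIdeal → s • z ∈ W.asIdeal := by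
        intro s z hs hz
        rw [← hs]
        change s⁻¹ • s • z ∈ W.asIdeal
        rwa [inv_smul_smul]
      have hinv : ∀ s : Gal(L/N), gpl s W = W → gpl s⁻¹ W = W := by
        intro s hs
        have h2 : gpl (s⁻¹ * s) W = W := by rw [inv_mul_cancel, gpl_one]
        rwa [gpl_mul, hs] at h2
      set m := Ideal.absNorm (W.under (𝓞 N)).asIdeal with hm
      have h3 : g⁻¹ • (τ • (g • x) - (g • x) ^ m) ∈ W.asIdeal :=
        hmem _ _ (hinv g hg) (hτF (g • x))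
      have h4 : τ⁻¹ • (τ • x - x ^ m) ∈ W.asIdeal := hmem _ _ (hinv τ hτW) (hτF x)
      have h5 : τ⁻¹ • (g⁻¹ • (τ • (g • x) - (g • x) ^ m)) ∈ W.asIdeal :=
        hmem _ _ (hinv τ hτW) h3
      have h6 := W.asIdeal.sub_mem h5 h4
      have e : (τ⁻¹ * (g⁻¹ * τ * g)) • x - x =
          τ⁻¹ • (g⁻¹ • (τ • (g • x) - (g • x) ^ m)) - τ⁻¹ • (τ • x - x ^ m) := by
        rw [smul_sub, smul_sub, smul_sub, smul_pow' g⁻¹, inv_smul_smul, inv_smul_smul,
          mul_smul, mul_smul, mul_smul]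
        ring
      rw [e]
      exact h6
    have h2 : g⁻¹ * τ * g = τ := by
      have h3 := congrArg (fun s => τ * s) h1
      simpa [mul_inv_cancel_left] using h3
    calc g * τ = g * (g⁻¹ * τ * g) := by rw [h2]
      _ = τ * g := by group
  set c := psi N (W.under (𝓞 N)).asIdeal with hc
  obtain ⟨e, e', he⟩ := (pd_cj D.pd).inv hna
  obtain ⟨xτ, hxτ⟩ := D.exists_kap (toF F τ)
  -- the values of the cocycle on the decomposition group
  have hkap : ∀ g : Gal(L/N), gpl g W = W → ∀ x cg : 𝓞 K, κ (toF F g) = sm L x (up L P₂) →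
      ga g (up L P₂) = sm L cg (up L P₂) → cj ϖ ∣ x - (cg - 1) * (e * xτ) := by
    intro g hg x cg hx hcg
    have h1 : κ (toF F g * toF F τ) = sm L (x + cg * xτ) (up L P₂) := D.kap_mul hx hxτ hcg
    have h2 : κ (toF F τ * toF F g) = sm L (xτ + c * x) (up L P₂) := D.kap_mul hxτ hx hτ
    have h3 : toF F g * toF F τ = toF F τ * toF F g := by
      have h4 := congrArg (fun s : Gal(L/N) => toF F s) (hcomm g hg)
      exact h4
    rw [h3, h2] at h1
    have h5 : cj ϖ ∣ xτ + c * x - (x + cg * xτ) := D.kap_unique.1 h1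
    have h6 : x - (cg - 1) * (e * xτ) =
        e * (xτ + c * x - (x + cg * xτ)) - ((c - 1) * e - 1) * x := by ring
    rw [h6, he]
    exact dvd_sub (h5.mul_left _) ((dvd_mul_right _ _).mul_right _)
  have hℓ : ℓ.Prime := D.pd.hl
  have hFact : Fact ℓ.Prime := ⟨hℓ⟩
  have hφ0 := hK.ker
  refine ⟨L, inferInstance, inferInstance, inferInstance, iG, W,
    ζ ^ (φ (-(e * xτ))).val * α, rfl, ?_, ?_⟩
  · rw [mul_pow, ← pow_mul, mul_comm _ ℓ, pow_mul, D.zeta.pow_eq_one, one_pow, one_mul, hK.pow]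
  · intro g hg
    obtain ⟨x, hx⟩ := D.exists_kap (toF F g)
    obtain ⟨cg, -, hcg⟩ := D.exists_c (toF F g)
    obtain ⟨t, ht⟩ := D.exists_x (toF F g)
    have hcg' : ga g (up L P₂) = sm L cg (up L P₂) := by rw [← ga_toF (F := F)]; exact hcg
    have ht' : g ζ = ζ ^ t := ht
    have h1 : cj ϖ ∣ (t : 𝓞 K) - cg := D.chi_N g hcg' ht'
    have h2 := hkap g hg x cg hx hcg'
    rw [map_mul, map_pow, ht', hK.act g x hx, ← pow_mul, ← mul_assoc, ← pow_add]
    congr 1
    apply D.zeta_pow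
    push_cast
    rw [ZMod.natCast_zmod_val, ZMod.natCast_zmod_val]
    have h3 : (t : ZMod ℓ) * φ (-(e * xτ)) = φ ((t : 𝓞 K) * (-(e * xτ))) := by
      rw [← nsmul_eq_mul, ← nsmul_eq_mul, map_nsmul]
    rw [h3, ← map_add]
    have h4 : (t : 𝓞 K) * (-(e * xτ)) + x = -(e * xτ) +
        (x - (cg - 1) * (e * xτ) - ((t : 𝓞 K) - cg) * (e * xτ)) := by ring
    rw [h4, map_add, hφ0 _ (dvd_sub h2 (h1.mul_right _)), add_zero]

end

end Pool.Agent.Lib.MP_1a91b9_nuW.W
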