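import Pool.Agent.Lib.MP_1a91b9_nuX.DH.Lev
import Pool.Agent.Lib.MP_1a91b9_nuW.W.PL

/-!
# Local `ℓ`-th powers satisfy the condition `WLoc`
-/

set_option autoImplicit false
set_option linter.unusedSectionVars false

namespace Pool.Agent.Lib.MP_1a91b9_nuW.W

open NumberField IsDedekindDomain WeierstrassCurve Pool.Agent.Lib.MP_1a91b9_nuT
open Pool.Agent.Lib.MP_1a91b9_nuX Pool.Agent.Lib.MP_1a91b9_nuX.DB Pool.Agent.Lib.MP_1a91b9_nuX.DX

variable [CD]

universe u

/-- a unit at a place of residue characteristic `ℓ` is an `ℓ`-th power modulo the place -/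
theorem res_root {N : Type u} [Field N] [NumberField N] {ℓ : ℕ} (hl : ℓ.Prime)
    (w : HeightOneSpectrum (𝓞 N)) (hw : w.valuation N (ℓ : N) < 1) {u : N}
    (hu : w.valuation N u ≤ 1) : ∃ s : N, w.valuation N (u - s ^ ℓ) < 1 := by
  obtain ⟨x, hx⟩ := exists_val_lt_of_int w hu 1
  have hx1 : w.valuation N (u - (x : N)) < 1 := by
    refine lt_of_le_of_lt hx ?_
    rw [← WithZero.exp_zero, WithZero.exp_lt_exp]
    norm_num
  have hm : w.asIdeal.IsMaximal := w.isMaximal
  let _ : Field (𝓞 N ⧸ w.asIdeal) := Ideal.Quotient.field w.asIdeal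
  have : Finite (𝓞 N ⧸ w.asIdeal) := Ring.HasFiniteQuotients.finiteQuotient w.ne_bot
  have : Fact ℓ.Prime := ⟨hl⟩
  have hmem : (ℓ : 𝓞 N) ∈ w.asIdeal := by
    rw [← w.valuation_lt_one_iff_mem (K := N)]
    change w.valuation N (algebraMap (𝓞 N) N (ℓ : 𝓞 N)) < 1
    rw [map_natCast]
    exact hw
  have : CharP (𝓞 N ⧸ w.asIdeal) ℓ := by
    have h0 : Ideal.Quotient.mk w.asIdeal (ℓ : 𝓞 N) = 0 := Ideal.Quotient.eq_zero_iff_mem.2 hmem
    rw [map_natCast] at h0
    exact (CharP.charP_iff_prime_eq_zero hl).2 h0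
  have hsurj : Function.Surjective (frobenius (𝓞 N ⧸ w.asIdeal) ℓ) :=
    Finite.injective_iff_surjective.1 (frobenius_inj _ ℓ)
  obtain ⟨r, hr⟩ := hsurj (Ideal.Quotient.mk w.asIdeal x)
  obtain ⟨s, rfl⟩ := Ideal.Quotient.mk_surjective r
  rw [frobenius_def, ← map_pow, Ideal.Quotient.eq] at hr
  refine ⟨(s : N), ?_⟩
  have h1 : w.valuation N (((s ^ ℓ - x : 𝓞 N)) : N) < 1 :=
    (w.valuation_lt_one_iff_mem (K := N) _).2 hr
  have e : u - (s : N) ^ ℓ = (u - (x : N)) - (((s ^ ℓ - x : 𝓞 N)) : N) := by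
    push_cast
    ring
  rw [e]
  exact Valuation.map_sub_lt _ hx1 h1

private theorem lcc_one {F : Type*} [Field F] {Γ : Type*} [LinearOrderedCommGroupWithZero Γ]
    (v : Valuation F Γ) {x y : F} (hx : v x = 1) (h : v (x - y) < 1) : v y = 1 := by
  have h1 := Valuation.map_sub_eq_of_lt_right v (x := x - y) (y := x) (by rwa [hx])
  rw [sub_sub_cancel_left, Valuation.map_neg] at h1
  rw [h1, hx]

private theorem lcc_pow {F : Type*} [Field F] {Γ : Type*} [LinearOrderedCommGroupWithZero Γ]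
    (v : Valuation F Γ) {x : F} {n : ℕ} (hn : n ≠ 0) (hx : v (x ^ n) = 1) : v x = 1 := by
  rw [map_pow] at hx
  exact (pow_eq_one_iff_of_nonneg zero_le hn).1 hx

/-- descent of the local condition along an extension in which the place does not ramify -/
theorem wloc_down {ϖ : 𝓞 K} {ℓ q : ℕ} (h : PD ϖ ℓ q) {N N' : Type u} [Field N] [NumberField N]
    [Algebra K N] [Field N'] [NumberField N'] [Algebra K N'] [Algebra N N']
    [IsScalarTower K N N'] (W : HeightOneSpectrum (𝓞 N'))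
    (he : W.asIdeal.ramificationIdx (𝓞 N) = 1)
    (hW : W.valuation N' (algebraMap K N' (ϖ : K)) < 1) {a z : N'} {a1 : N} (ha1 : a1 ≠ 0)
    (hz : z ≠ 0) (hod : (ℓ : ℤ) ∣ od (W.under (𝓞 N)) a1) (hloc : WLoc ℓ W a)
    (h1 : algebraMap N N' a1 = a * z ^ ℓ) : WLoc ℓ (W.under (𝓞 N)) a1 := by
  have hl0 : ℓ ≠ 0 := h.hl.ne_zero
  set w := W.under (𝓞 N) with hWw
  have hw : w.valuation N (algebraMap K N (ϖ : K)) < 1 := by
    rw [hWw, ← val_map_lt, ← IsScalarTower.algebraMap_apply K N N']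
    exact hW
  have hwl : w.valuation N (ℓ : N) < 1 := by
    rw [h.val_ell hw]
    exact hw
  have hod' : ∀ x : N, od W (algebraMap N N' x) = od w x := by
    intro x
    rw [od_map, he]
    push_cast
    ring
  have hval : ∀ x : N, W.valuation N' (algebraMap N N' x) = w.valuation N x := by
    intro x
    rcases eq_or_ne x 0 with rfl | hx
    · rw [map_zero, map_zero, map_zero]
    · rw [val_eq W (by simpa using hx), val_eq w hx, hod']
  -- normalise `a1`
  obtain ⟨n, hn⟩ := hod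
  obtain ⟨π, hπ⟩ := exists_od_one w
  have hπ0 : π ≠ 0 := by
    rintro rfl
    simp [od] at hπ
  set b1 : N := π ^ (-n) with hb1
  have hb10 : b1 ≠ 0 := zpow_ne_zero _ hπ0
  set u : N := a1 * b1 ^ ℓ with hu1
  have hu0 : u ≠ 0 := mul_ne_zero ha1 (pow_ne_zero _ hb10)
  have hwu : w.valuation N u = 1 := by
    rw [val_eq_one_iff w hu0, hu1, od_mul w ha1 (pow_ne_zero _ hb10), od_pow, hb1, od_zpow,
      hπ, hn]
    ring
  obtain ⟨b, c, hb, hc⟩ := hloc
  have hb0 : b ≠ 0 := by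
    rintro rfl
    rw [zero_pow hl0, mul_zero, map_zero] at hb
    exact zero_ne_one hb
  set U : N' := algebraMap N N' u with hU
  have hWU : W.valuation N' U = 1 := by rw [hU, hval, hwu]
  have hUe : U = (a * b ^ ℓ) * (z * algebraMap N N' b1 / b) ^ ℓ := by
    rw [hU, hu1, map_mul, map_pow, h1, div_pow, mul_pow]
    field_simp
  set y : N' := z * algebraMap N N' b1 / b with hy
  have hWy : W.valuation N' y = 1 := by
    refine lcc_pow (W.valuation N') hl0 ?_
    have e : W.valuation N' U = W.valuation N' (a * b ^ ℓ) * W.valuation N' (y ^ ℓ) := by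
      rw [← map_mul, ← hUe]
    rw [hWU, hb, one_mul] at e
    exact e.symm
  set t : N' := c * y with ht
  have hUt : W.valuation N' (U - t ^ ℓ) ≤ WithZero.exp (-2 : ℤ) := by
    have e : U - t ^ ℓ = y ^ ℓ * (a * b ^ ℓ - c ^ ℓ) := by
      rw [hUe, ht]
      ring
    rw [e, map_mul, map_pow, hWy, one_pow, one_mul]
    exact hc
  have hexp : (WithZero.exp (-2 : ℤ)) < 1 := by
    rw [← WithZero.exp_zero, WithZero.exp_lt_exp]
    norm_num
  obtain ⟨s, hs⟩ := res_root h.hl w hwl hwu.le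
  have hws : w.valuation N s = 1 := lcc_pow _ hl0 (lcc_one _ hwu hs)
  set S : N' := algebraMap N N' s with hSd
  have hWS : W.valuation N' S = 1 := by rw [hSd, hval, hws]
  have hS0 : S ≠ 0 := by
    intro e
    rw [e, map_zero] at hWS
    exact zero_ne_one hWS
  have hUS : W.valuation N' (U - S ^ ℓ) < 1 := by
    have e : U - S ^ ℓ = algebraMap N N' (u - s ^ ℓ) := by rw [map_sub, map_pow]
    rw [e, hval]
    exact hs
  have htS : W.valuation N' (t ^ ℓ - S ^ ℓ) < 1 := by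
    have e : t ^ ℓ - S ^ ℓ = (U - S ^ ℓ) - (U - t ^ ℓ) := by ring
    rw [e]
    exact Valuation.map_sub_lt _ hUS (lt_of_le_of_lt hUt hexp)
  have hq : ∀ x : N', W.valuation N' (x / S ^ ℓ) = W.valuation N' x := by
    intro x
    rw [map_div₀, map_pow, hWS, one_pow, div_one]
  have hdiv : (t / S) ^ ℓ - 1 = (t ^ ℓ - S ^ ℓ) / S ^ ℓ := by
    rw [div_pow, sub_div, div_self (pow_ne_zero _ hS0)]
  have h2 : W.valuation N' ((t / S) ^ ℓ - 1) < 1 := by
    rw [hdiv, hq]
    exact htS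
  have h3 := pow_loc h hW h2
  rw [hdiv, hq] at h3
  refine ⟨b1, s, hwu, ?_⟩
  rw [← hu1, ← hval]
  have e : algebraMap N N' (u - s ^ ℓ) = (U - t ^ ℓ) + (t ^ ℓ - S ^ ℓ) := by
    rw [map_sub, map_pow]
    ring
  rw [e]
  exact Valuation.map_add_le _ hUt h3

/-- an `ℓ`-th power satisfies the local condition -/
theorem wloc_pow {N : Type u} [Field N] [NumberField N] {ℓ : ℕ} (w : HeightOneSpectrum (𝓞 N))
    {t : N} (ht : t ≠ 0) : WLoc ℓ w (t ^ ℓ) := by
  refine ⟨t⁻¹, 1, ?_, ?_⟩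
  · rw [← mul_pow, mul_inv_cancel₀ ht, one_pow, map_one]
  · rw [← mul_pow, mul_inv_cancel₀ ht, sub_self, map_zero]
    exact zero_le

variable [HC]

/-- local `ℓ`-th powers satisfy the local condition -/
theorem pl_wloc {ϖ : 𝓞 K} {ℓ q : ℕ} (h : PD ϖ ℓ q) {N : Type u} [Field N] [NumberField N]
    [Algebra K N] (w : HeightOneSpectrum (𝓞 N))
    (hw : w.valuation N (algebraMap K N (ϖ : K)) < 1) {y : N} (hy : y ≠ 0) (hpl : PL ℓ w y) :
    WLoc ℓ w y := by
  obtain ⟨L, i1, i2, i3, iG, W, β, hW, hβ, hfix⟩ := hpl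
  letI : Algebra K L := ((algebraMap N L).comp (algebraMap K N)).toAlgebra
  haveI : IsScalarTower K N L := IsScalarTower.of_algebraMap_eq fun _ => rfl
  obtain ⟨N', j1, j2, j3, j4, j5, j6, j7, j8, hgal', hram, hdec⟩ := DH.exists_dec (N := N) W
  have hfin : FiniteDimensional N' L := Module.Finite.of_restrictScalars_finite ℚ N' L
  obtain ⟨t, ht⟩ := (IsGalois.mem_range_algebraMap_iff_fixed (F := N') β).2
    (fun σ => hfix (toF N σ) (hdec σ))
  have ht' : t ^ ℓ = algebraMap N N' y := by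
    apply (algebraMap N' L).injective
    rw [map_pow, ht, hβ, ← IsScalarTower.algebraMap_apply N N' L]
  have ht0 : t ≠ 0 := by
    rintro rfl
    rw [zero_pow h.hl.ne_zero] at ht'
    exact hy ((map_eq_zero _).1 ht'.symm)
  have hVw : (W.under (𝓞 N')).under (𝓞 N) = w := by rw [under_under, hW]
  have hV : (W.under (𝓞 N')).valuation N' (algebraMap K N' (ϖ : K)) < 1 := by
    rw [IsScalarTower.algebraMap_apply K N N', val_map_lt, hVw]
    exact hw
  have hod : (ℓ : ℤ) ∣ od ((W.under (𝓞 N')).under (𝓞 N)) y := by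
    have h1 := od_map (k := N) (W.under (𝓞 N')) y
    rw [hram, ← ht', od_pow, Nat.cast_one, one_mul] at h1
    exact ⟨_, h1.symm⟩
  have hmain := wloc_down h (W.under (𝓞 N')) hram hV (a := t ^ ℓ) (z := 1) hy one_ne_zero hod
    (wloc_pow _ ht0) (by rw [one_pow, mul_one, ht'])
  rwa [hVw] at hmain

end Pool.Agent.Lib.MP_1a91b9_nuW.W
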